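import Mathlib
import Pool.Agent.Helper726_CoheirDef.Blocks

set_option autoImplicit false

open FirstOrder FirstOrder.Language

namespace Helper726CD

open Helper726LI

section MainSec

variable {L : FirstOrder.Language.{0, 0}} {M N : Type} [L.Structure M] [L.Structure N]
  {n m : ℕ}

/-- The pattern `t` is attained by realizations of the types over `M` of the `b i` and of `u`. -/
def Att (f : M ↪ₑ[L] N) (φ : L.Formula (Fin n ⊕ Fin m)) (K : ℕ) {k : ℕ} {J : Type}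
    (b : Fin k → Fin m → N) (u : J × Fin m → N)
    (t : Set ((Fin K → Fin k ⊕ J) × (Fin K → Bool))) : Prop :=
  ∃ w : (Fin k ⊕ J) × Fin m → N, (∀ i, tpEq f (fun j => w (Sum.inl i, j)) (b i)) ∧
    tpEq f (fun q : J × Fin m => w (Sum.inr q.1, q.2)) u ∧ pat φ K w = t

variable {f : M ↪ₑ[L] N}

theorem Att_open [Nonempty M] (HN : RealizesTypes f) (φ : L.Formula (Fin n ⊕ Fin m)) (K : ℕ)
    {k : ℕ} {J : Type} [Finite J] (b : Fin k → Fin m → N) (u : J × Fin m → N)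
    {t : Set ((Fin K → Fin k ⊕ J) × (Fin K → Bool))} (ht : ¬ Att f φ K b u t) :
    ∃ S : Set (J × Fin m → N), Mdef f S ∧ u ∈ S ∧ ∀ u₂ ∈ S, ¬ Att f φ K b u₂ t := by
  -- this is the case of constant sign sets of the earlier openness lemma
  have h1 : t ∉ TT φ K f (fun i (_ : Bool) => b i) u := by
    intro h
    exact ht (h (fun _ => true))
  obtain ⟨S, hS, huS, hST⟩ := TT_open φ K HN (fun i (_ : Bool) => b i) u h1
  refine ⟨S, hS, huS, fun u₂ hu₂ h => hST u₂ hu₂ fun _ => h⟩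

/-- The set of patterns over `u` which are attained for all sign choices, the `i`-th point being
chosen in the set `B i (ε i)`. -/
def TS (f : M ↪ₑ[L] N) (φ : L.Formula (Fin n ⊕ Fin m)) (K : ℕ) {k : ℕ} {J : Type}
    (B : Fin k → Bool → Set (Fin m → N)) (u : J × Fin m → N) :
    Set (Set ((Fin K → Fin k ⊕ J) × (Fin K → Bool))) :=
  {t | ∀ ε : Fin k → Bool, ∃ b : Fin k → Fin m → N, (∀ i, b i ∈ B i (ε i)) ∧
    Att f φ K b u t}

theorem TS_open [Nonempty M] (HN : RealizesTypes f) (φ : L.Formula (Fin n ⊕ Fin m)) (K : ℕ)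
    {k : ℕ} {J : Type} [Finite J] {B : Fin k → Bool → Set (Fin m → N)}
    (hB : ∀ i σ, (B i σ).Finite) (u : J × Fin m → N)
    {t : Set ((Fin K → Fin k ⊕ J) × (Fin K → Bool))} (ht : t ∉ TS f φ K B u) :
    ∃ S : Set (J × Fin m → N), Mdef f S ∧ u ∈ S ∧ ∀ u₂ ∈ S, t ∉ TS f φ K B u₂ := by
  obtain ⟨ε, hε⟩ : ∃ ε : Fin k → Bool, ∀ b : Fin k → Fin m → N, (∀ i, b i ∈ B i (ε i)) →
      ¬ Att f φ K b u t := by
    by_contra hno
    apply ht
    intro ε
    by_contra hno2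
    exact hno ⟨ε, fun b hb hA => hno2 ⟨b, hb, hA⟩⟩
  have hfin : (Set.pi Set.univ fun i => B i (ε i)).Finite := Set.Finite.pi fun i => hB i (ε i)
  have := hfin.to_subtype
  choose S hS huS hST using fun b : (Set.pi Set.univ fun i => B i (ε i)) =>
    Att_open HN φ K b.1 u (hε b.1 fun i => b.2 i (Set.mem_univ i))
  refine ⟨{v | ∀ b, v ∈ S b}, Mdef.all hS, huS, fun u₂ hu₂ h => ?_⟩
  obtain ⟨b, hb, hA⟩ := h ε
  exact hST ⟨b, fun i _ => hb i⟩ u₂ (hu₂ _) hA

theorem TS_open_set [Nonempty M] (HN : RealizesTypes f) (φ : L.Formula (Fin n ⊕ Fin m)) (K : ℕ)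
    {k : ℕ} {J : Type} [Finite J] {B : Fin k → Bool → Set (Fin m → N)}
    (hB : ∀ i σ, (B i σ).Finite) (u : J × Fin m → N)
    (D : Set (Set ((Fin K → Fin k ⊕ J) × (Fin K → Bool))))
    (hD : ∀ t ∈ D, t ∉ TS f φ K B u) :
    ∃ S : Set (J × Fin m → N), Mdef f S ∧ u ∈ S ∧ ∀ u₂ ∈ S, ∀ t ∈ D, t ∉ TS f φ K B u₂ := by
  choose S hS huS hT using fun t : D => TS_open HN φ K hB u (hD t.1 t.2)
  exact ⟨{v | ∀ t : D, v ∈ S t}, Mdef.all hS, fun t => huS t,
    fun u₂ hu₂ t ht => hT ⟨t, ht⟩ u₂ (hu₂ ⟨t, ht⟩)⟩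

/-- `(b, e)` as one tuple, indexed by `Option J`. -/
def opt {X J : Type} (b : Fin m → X) (e : J × Fin m → X) : Option J × Fin m → X :=
  fun q => Option.elim q.1 (b q.2) (fun j => e (j, q.2))

/-- The inductive statement: finite sets `B i true`, `B i false` on the two sides of `Φ`
(`i < k`) such that over every tuple of `M` indexed by `J` some pattern is attained for all sign
choices. -/
def QS (f : M ↪ₑ[L] N) (φ : L.Formula (Fin n ⊕ Fin m)) (K : ℕ) (Φ : (Fin m → N) → Prop)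
    (k : ℕ) (J : Type) : Prop :=
  ∃ B : Fin k → Bool → Set (Fin m → N), (∀ i σ, (B i σ).Finite) ∧
    (∀ i σ, ∀ b ∈ B i σ, (Φ b ↔ σ = true)) ∧
    ∀ u : J × Fin m → M, ∃ t, t ∈ TS f φ K B (fun q => f (u q))

theorem QS_zero (φ : L.Formula (Fin n ⊕ Fin m)) (K : ℕ) (Φ : (Fin m → N) → Prop)
    (J : Type) : QS f φ K Φ 0 J := by
  refine ⟨fun i => i.elim0, fun i => i.elim0, fun i => i.elim0, fun u => ?_⟩
  refine ⟨pat φ K (fun q : (Fin 0 ⊕ J) × Fin m => Sum.elim (fun i : Fin 0 => i.elim0)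
    (fun j => f (u (j, q.2))) q.1), fun ε => ⟨fun i => i.elim0, fun i => i.elim0,
      _, fun i => i.elim0, ?_, rfl⟩⟩
  exact tpEq.refl _

theorem not_QS_top {φ : L.Formula (Fin n ⊕ Fin m)} {K : ℕ}
    (hK : ¬ Shatters {v : Fin m ⊕ Fin n → N |
      φ.Realize (Sum.elim (fun x => v (Sum.inr x)) (fun y => v (Sum.inl y)))} K)
    {Φ : (Fin m → N) → Prop} (hinv : ∀ b b', tpEq f b b' → (Φ b ↔ Φ b'))
    (hcons : ∀ (K : ℕ) (w : Fin K → Fin m → N), ∃ x : Fin n → N, ∀ i,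
      (φ.Realize (Sum.elim x (w i)) ↔ Φ (w i))) :
    ¬ QS f φ K Φ K Empty := by
  rintro ⟨B, -, hB, hT⟩
  obtain ⟨t, ht⟩ := hT (fun q => q.1.elim)
  -- every sign vector occurs in `t`
  have hall : ∀ ε : Fin K → Bool, ((fun i => (Sum.inl i : Fin K ⊕ Empty)), ε) ∈ t := by
    intro ε
    obtain ⟨b, hb, w, hw1, -, hw3⟩ := ht ε
    rw [← hw3]
    obtain ⟨x, hx⟩ := hcons K (fun i j => w (Sum.inl i, j))
    refine ⟨x, fun i => ?_⟩
    have h1 := hx i
    have h2 := hinv _ _ (hw1 i)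
    simp only at h1 ⊢
    rw [h1, h2]
    exact hB i (ε i) (b i) (hb i)
  obtain ⟨b, -, w, -, -, hw3⟩ := ht (fun _ => true)
  apply hK
  refine ⟨fun q => w (Sum.inl q.1, q.2), fun ε => ?_⟩
  have := hall ε
  rw [← hw3] at this
  obtain ⟨x, hx⟩ := this
  refine ⟨x, fun i => ?_⟩
  exact hx i

/-- Separation: if the statement fails at `k + 1`, then for good `B` of length `k` and finite
sets `C true`, `C false` on the two sides of `Φ`, one tuple `e` of `M` makes the pattern sets of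
all pairs disjoint. -/
theorem separation {φ : L.Formula (Fin n ⊕ Fin m)} {K : ℕ} {Φ : (Fin m → N) → Prop} {k : ℕ}
    {J : Type} (hQ : ¬ QS f φ K Φ (k + 1) J) {B : Fin k → Bool → Set (Fin m → N)}
    (hBf : ∀ i σ, (B i σ).Finite) (hB : ∀ i σ, ∀ b ∈ B i σ, (Φ b ↔ σ = true))
    (C : Bool → Set (Fin m → N)) (hCf : ∀ σ, (C σ).Finite)
    (hC : ∀ σ, ∀ b ∈ C σ, (Φ b ↔ σ = true)) :
    ∃ e : J × Fin m → M, ∀ bp ∈ C true, ∀ bm ∈ C false, ∀ t,
      t ∈ TS f φ K B (opt bp (fun q => f (e q))) →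
      t ∉ TS f φ K B (opt bm (fun q => f (e q))) := by
  by_contra hcon
  apply hQ
  refine ⟨Fin.snoc (α := fun _ => Bool → Set (Fin m → N)) B C, ?_, ?_, ?_⟩
  · intro i
    refine Fin.lastCases ?_ (fun i => ?_) i
    · rw [Fin.snoc_last]
      exact hCf
    · rw [Fin.snoc_castSucc]
      exact hBf i
  · intro i
    refine Fin.lastCases ?_ (fun i => ?_) i
    · rw [Fin.snoc_last]
      exact hC
    · rw [Fin.snoc_castSucc]
      exact hB i
  intro u
  obtain ⟨bp, hbp, bm, hbm, t, ht1, ht2⟩ : ∃ bp ∈ C true, ∃ bm ∈ C false, ∃ t,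
      t ∈ TS f φ K B (opt bp (fun q => f (u q))) ∧
      t ∈ TS f φ K B (opt bm (fun q => f (u q))) := by
    by_contra hno
    exact hcon ⟨u, fun bp hbp bm hbm t h1 h2 => hno ⟨bp, hbp, bm, hbm, t, h1, h2⟩⟩
  have hσ : ∀ σ : Bool, ∃ c ∈ C σ, t ∈ TS f φ K B (opt c (fun q => f (u q))) := by
    intro σ
    cases σ
    · exact ⟨bm, hbm, ht2⟩
    · exact ⟨bp, hbp, ht1⟩
  let r : Fin (k + 1) ⊕ J → Fin k ⊕ Option J := Sum.elim
    (fun i => Fin.lastCases (motive := fun _ => Fin k ⊕ Option J) (Sum.inr none)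
      (fun i => Sum.inl i) i) (fun j => Sum.inr (some j))
  refine ⟨{p | ((fun i => r (p.1 i)), p.2) ∈ t}, fun ε => ?_⟩
  obtain ⟨c, hc, hct⟩ := hσ (ε (Fin.last k))
  obtain ⟨b, hb, w, hw1, hw2, hw3⟩ := hct (fun i => ε i.castSucc)
  refine ⟨Fin.snoc (α := fun _ => Fin m → N) b c, ?_, fun q => w (r q.1, q.2), ?_, ?_, ?_⟩
  · intro i
    refine Fin.lastCases ?_ (fun i => ?_) i
    · rw [Fin.snoc_last, Fin.snoc_last]
      exact hc
    · rw [Fin.snoc_castSucc, Fin.snoc_castSucc]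
      exact hb i
  · intro i
    refine Fin.lastCases ?_ (fun i => ?_) i
    · rw [Fin.snoc_last]
      have h1 := hw2.comap (fun j : Fin m => ((none, j) : Option J × Fin m))
      simp only [r, Sum.elim_inl, Fin.lastCases_last]
      exact h1
    · rw [Fin.snoc_castSucc]
      simp only [r, Sum.elim_inl, Fin.lastCases_castSucc]
      exact hw1 i
  · exact hw2.comap (fun q : J × Fin m => ((some q.1, q.2) : Option J × Fin m))
  · rw [pat_comap, hw3]

/-- The two open sets attached to a set of patterns. -/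
def OO (f : M ↪ₑ[L] N) (φ : L.Formula (Fin n ⊕ Fin m)) (K : ℕ) {k : ℕ} {J : Type}
    (B : Fin k → Bool → Set (Fin m → N))
    (T : Set (Set ((Fin K → Fin k ⊕ J) × (Fin K → Bool)))) (σ : Bool) : Set (J × Fin m → N) :=
  {w | ∀ t ∈ TS f φ K B w, (t ∈ T ↔ σ = true)}

theorem OO_open [Nonempty M] (HN : RealizesTypes f) (φ : L.Formula (Fin n ⊕ Fin m)) (K : ℕ)
    {k : ℕ} {J : Type} [Finite J] {B : Fin k → Bool → Set (Fin m → N)}
    (hB : ∀ i σ, (B i σ).Finite) (T : Set (Set ((Fin K → Fin k ⊕ J) × (Fin K → Bool)))) :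
    ∀ σ, ∀ w ∈ OO f φ K B T σ, ∃ S, Mdef f S ∧ w ∈ S ∧ S ⊆ OO f φ K B T σ := by
  intro σ w hw
  obtain ⟨S, hS, hwS, hST⟩ := TS_open_set HN φ K hB w {t | ¬ (t ∈ T ↔ σ = true)}
    (fun t ht h => ht (hw t h))
  refine ⟨S, hS, hwS, fun w₂ hw₂ t ht => ?_⟩
  by_contra hcon
  exact hST w₂ hw₂ t hcon ht

/-- Finite-set form of coheir definability, with finitely many formulas. -/
theorem main_family [Nonempty M] (hNIP : NIPHyp L M) (HN : RealizesTypes f)
    (φ : L.Formula (Fin n ⊕ Fin m)) (Φ : (Fin m → N) → Prop)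
    (hinv : ∀ b b', tpEq f b b' → (Φ b ↔ Φ b'))
    (hcons : ∀ (K : ℕ) (w : Fin K → Fin m → N), ∃ x : Fin n → N, ∀ i,
      (φ.Realize (Sum.elim x (w i)) ↔ Φ (w i))) :
    ∃ (Λ Z : Type) (_ : Finite Λ) (_ : Finite Z) (ψ : Λ → L.Formula (Fin m ⊕ Z)),
      ∀ C : Set (Fin m → N), C.Finite → ∃ (l : Λ) (z : Z → M), ∀ c ∈ C,
        ((ψ l).Realize (Sum.elim c (fun i => f (z i))) ↔ Φ c) := by
  by_contra hnl
  -- the NIP bound for `φ`
  have hSdef : Mdef f {v : Fin m ⊕ Fin n → N |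
      φ.Realize (Sum.elim (fun x => v (Sum.inr x)) (fun y => v (Sum.inl y)))} := by
    refine (Mdef.formula f φ (Sum.elim (fun x => Sum.inl (Sum.inr x))
      (fun y => Sum.inl (Sum.inl y)))).congr fun v => ?_
    simp only [Set.mem_ofPred_eq]
    have : (fun z => Sum.elim v f ((Sum.elim (fun x => Sum.inl (Sum.inr x))
      (fun y => Sum.inl (Sum.inl y)) : Fin n ⊕ Fin m → (Fin m ⊕ Fin n) ⊕ M) z)) =
      Sum.elim (fun x => v (Sum.inr x)) (fun y => v (Sum.inl y)) := by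
      funext z
      rcases z with z | z <;> rfl
    rw [this]
  obtain ⟨K, hK⟩ := hNIP.not_shatters hSdef
  -- the largest good `k`
  obtain ⟨k, hgood, hbad⟩ : ∃ k, (∀ (J : Type) [Finite J], QS f φ K Φ k J) ∧
      ¬ (∀ (J : Type) [Finite J], QS f φ K Φ (k + 1) J) := by
    by_contra hno
    have hallk : ∀ k, ∀ (J : Type) [Finite J], QS f φ K Φ k J := by
      intro k
      induction k with
      | zero => exact fun J _ => QS_zero φ K Φ J
      | succ k ih =>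
        by_contra hk
        exact hno ⟨k, ih, hk⟩
    exact not_QS_top hK hinv hcons (hallk K Empty)
  obtain ⟨J₀, hJ₀, hbad⟩ : ∃ (J : Type) (_ : Finite J), ¬ QS f φ K Φ (k + 1) J := by
    by_contra hno
    exact hbad fun J hJ => by
      by_contra hQ
      exact hno ⟨J, hJ, hQ⟩
  -- the common bound for the formulas `φ'_T`
  let S' : Set (Set ((Fin K → Fin k ⊕ Option J₀) × (Fin K → Bool))) →
      Set ((Option J₀ × Fin m) ⊕ (Fin k × Fin m) → N) := fun T =>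
    {v | (fun q : (Fin k ⊕ Option J₀) × Fin m => v (Sum.elim
      (fun i => (Sum.inr (i, q.2) : (Option J₀ × Fin m) ⊕ (Fin k × Fin m)))
      (fun o => Sum.inl (o, q.2)) q.1)) ∈
        {w : (Fin k ⊕ Option J₀) × Fin m → N | pat φ K w ∈ T}}
  have hS' : ∀ T, Mdef f (S' T) := fun T => (Mdef_pat_mem φ K T).comap _
  obtain ⟨N', hN'⟩ := hNIP.common_bound hS'
  obtain ⟨B, hBf, hB, hBT⟩ := hgood (Fin N' × Option J₀)
  -- pigeonhole
  obtain ⟨T, hT⟩ : ∃ T : Set (Set ((Fin K → Fin k ⊕ Option J₀) × (Fin K → Bool))),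
      NonSep f (OO f φ K B T) := by
    by_contra hno
    have hno' : ∀ T : Set (Set ((Fin K → Fin k ⊕ Option J₀) × (Fin K → Bool))),
        ∃ (Z : Type) (_ : Finite Z) (ψ : L.Formula ((Option J₀ × Fin m) ⊕ Z)),
          ∀ C : Bool → Set (Option J₀ × Fin m → N),
            (∀ σ, (C σ).Finite ∧ C σ ⊆ OO f φ K B T σ) → ∃ z : Z → M,
            (∀ w ∈ C true, ψ.Realize (Sum.elim w (fun i => f (z i)))) ∧
            (∀ w ∈ C false, ¬ ψ.Realize (Sum.elim w (fun i => f (z i)))) := by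
      intro T
      by_contra hTno
      apply hno
      refine ⟨T, fun Z hZ ψ => ?_⟩
      by_contra hψ
      refine hTno ⟨Z, hZ, ψ, fun C hC => ?_⟩
      by_contra hz
      exact hψ ⟨C, hC, fun z h => hz ⟨z, h⟩⟩
    choose Z hZ ψ hψ using hno'
    apply hnl
    refine ⟨Set (Set ((Fin K → Fin k ⊕ Option J₀) × (Fin K → Bool))),
      (J₀ × Fin m) ⊕ (Σ T, Z T), inferInstance, inferInstance,
      fun T => (ψ T).relabel (Sum.elim
        (fun q => Option.elim q.1 (Sum.inl q.2) (fun j => Sum.inr (Sum.inl (j, q.2))))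
        (fun ζ => Sum.inr (Sum.inr ⟨T, ζ⟩))), fun C hC => ?_⟩
    -- the two parts of `C`
    let C' : Bool → Set (Fin m → N) := fun σ => {c | c ∈ C ∧ (Φ c ↔ σ = true)}
    have hC'f : ∀ σ, (C' σ).Finite := fun σ => hC.subset fun c hc => hc.1
    obtain ⟨e, he⟩ := separation hbad hBf hB C' hC'f (fun σ b hb => hb.2)
    let T : Set (Set ((Fin K → Fin k ⊕ Option J₀) × (Fin K → Bool))) :=
      {t | ∃ b ∈ C' true, t ∈ TS f φ K B (opt b (fun q => f (e q)))}
    obtain ⟨z, hz1, hz2⟩ := hψ T (fun σ => (fun b => opt b (fun q => f (e q))) '' C' σ) (by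
      intro σ
      refine ⟨(hC'f σ).image _, ?_⟩
      rintro _ ⟨b, hb, rfl⟩ t ht
      cases σ with
      | true => exact ⟨fun _ => rfl, fun _ => ⟨b, hb, ht⟩⟩
      | false =>
        refine ⟨?_, fun h => absurd h (by decide)⟩
        rintro ⟨b', hb', ht'⟩
        exact absurd ht (he b' hb' b hb t ht'))
    classical
    refine ⟨T, Sum.elim e (Function.extend (Sigma.mk (β := Z) T) z
      (fun _ => Classical.arbitrary M)), fun c hc => ?_⟩
    rw [Formula.realize_relabel]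
    have key : (Sum.elim c fun i => f ((Sum.elim e (Function.extend
        (Sigma.mk (β := Z) T) z (fun _ => Classical.arbitrary M)) :
          (J₀ × Fin m) ⊕ (Σ T, Z T) → M) i)) ∘
        (Sum.elim
          (fun q : Option J₀ × Fin m => Option.elim q.1 (Sum.inl q.2)
            (fun j => Sum.inr (Sum.inl (j, q.2))))
          (fun ζ => Sum.inr (Sum.inr ⟨T, ζ⟩))) =
        Sum.elim (opt c (fun q => f (e q))) (fun i => f (z i)) := by
      funext x
      rcases x with ⟨o, x⟩ | x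
      · cases o <;> rfl
      · simp only [Function.comp_apply, Sum.elim_inr]
        rw [Function.Injective.extend_apply sigma_mk_injective]
    rw [key]
    by_cases hΦ : Φ c
    · exact ⟨fun _ => hΦ, fun _ => hz1 _ ⟨c, ⟨hc, by simp [hΦ]⟩, rfl⟩⟩
    · exact ⟨fun h => absurd h (hz2 _ ⟨c, ⟨hc, by simp [hΦ]⟩, rfl⟩), fun h => absurd h hΦ⟩
  -- the colours: which sign vectors on the `N'` blocks are realized by some `x'`
  let Fcol : (Fin N' → Bool) → Set ((Fin N' × (Option J₀ × Fin m)) ⊕ Empty → N) := fun δ =>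
    {v | (fun q => v (Sum.inl q)) ∈ {v : Fin N' × (Option J₀ × Fin m) → N |
      ∃ c : Fin k × Fin m → N, Sum.elim v c ∈
        {v : (Fin N' × (Option J₀ × Fin m)) ⊕ (Fin k × Fin m) → N | ∀ j : Fin N', v ∈
          {v : (Fin N' × (Option J₀ × Fin m)) ⊕ (Fin k × Fin m) → N | v ∈
            {v : (Fin N' × (Option J₀ × Fin m)) ⊕ (Fin k × Fin m) → N |
              Sum.elim (fun x => v (Sum.inl (j, x))) (fun y => v (Sum.inr y)) ∈ S' T}
              ↔ δ j = true}}}}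
  have hFcol : ∀ δ, Mdef f (Fcol δ) := fun δ =>
    (Mdef.ex (Mdef.all fun j => ((hS' T).slice j).iff_const _)).comap _
  obtain ⟨Θ, hΘ, hcol⟩ := blocks (OO_open HN φ K hBf T) hT N' Empty (Fin N' → Bool) Fcol hFcol
  obtain ⟨τ, hτ⟩ := hcol (fun z => z.elim)
  have hτall : ∀ ε : Fin N' → Bool, ε ∈ τ := by
    intro ε
    obtain ⟨w, hw1, hw2⟩ := hτ ε
    rw [← hw2]
    -- the tuple of all blocks
    obtain ⟨t, ht⟩ := hBT (fun q => w (q.1.1, (q.1.2, q.2)))
    obtain ⟨b₀, -, v₀, -, hv2, hv3⟩ := ht (fun _ => true)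
    refine ⟨fun q => v₀ (Sum.inl q.1, q.2), fun j => ?_⟩
    let r : Fin k ⊕ Option J₀ → Fin k ⊕ (Fin N' × Option J₀) :=
      Sum.map id (fun o => (j, o))
    have htj : {p | ((fun i => r (p.1 i)), p.2) ∈ t} ∈
        TS f φ K B (fun i => f (w (j, i))) := by
      intro ε'
      obtain ⟨b, hb, v, hv1, hv2, hv3⟩ := ht ε'
      refine ⟨b, hb, fun q => v (r q.1, q.2), ?_, ?_, ?_⟩
      · intro i
        exact hv1 i
      · exact hv2.comap (fun q : Option J₀ × Fin m => ((j, q.1), q.2))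
      · rw [pat_comap, hv3]
    have hO : (fun i => f (w (j, i))) ∈ OO f φ K B T (ε j) := (hΘ j (ε j)).2 (hw1 j)
    rw [← hO _ htj]
    -- membership in `S' T`
    have hpat : pat φ K (fun q : (Fin k ⊕ Option J₀) × Fin m => v₀ (r q.1, q.2)) =
        {p | ((fun i => r (p.1 i)), p.2) ∈ t} := by
      rw [pat_comap, hv3]
    rw [← hpat]
    have heq : (fun q : (Fin k ⊕ Option J₀) × Fin m => (Sum.elim
        (fun x : Option J₀ × Fin m => f (w (j, x)))
        (fun y : Fin k × Fin m => v₀ (Sum.inl y.1, y.2))) (Sum.elim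
      (fun i => (Sum.inr (i, q.2) : (Option J₀ × Fin m) ⊕ (Fin k × Fin m)))
      (fun o => Sum.inl (o, q.2)) q.1)) =
        (fun q : (Fin k ⊕ Option J₀) × Fin m => v₀ (r q.1, q.2)) := by
      funext q
      obtain ⟨q1 | q1, q2⟩ := q
      · rfl
      · have := hv2.eq_of_point (u := fun q : (Fin N' × Option J₀) × Fin m =>
          w (q.1.1, (q.1.2, q.2))) ((j, q1), q2)
        exact this.symm
    rw [← heq]
    rfl
  obtain ⟨w, -, hw2⟩ := hτ (fun _ => true)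
  apply hN' T
  refine ⟨fun q => f (w q), fun ε => ?_⟩
  have := (hw2 ε).2 (hτall ε)
  obtain ⟨c, hc⟩ := this
  exact ⟨c, fun i => hc i⟩

/-- Finite-set form of coheir definability, with one formula. -/
theorem main_single [Nonempty M] (hNIP : NIPHyp L M) (HN : RealizesTypes f)
    (φ : L.Formula (Fin n ⊕ Fin m)) (Φ : (Fin m → N) → Prop)
    (hinv : ∀ b b', tpEq f b b' → (Φ b ↔ Φ b'))
    (hcons : ∀ (K : ℕ) (w : Fin K → Fin m → N), ∃ x : Fin n → N, ∀ i,
      (φ.Realize (Sum.elim x (w i)) ↔ Φ (w i))) :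
    ∃ (k : ℕ) (ψ : L.Formula (Fin m ⊕ Fin k)),
      ∀ C : Set (Fin m → N), C.Finite → ∃ z : Fin k → M, ∀ c ∈ C,
        (ψ.Realize (Sum.elim c (fun i => f (z i))) ↔ Φ c) := by
  obtain ⟨Λ, Z, hΛ, hZ, ψ, hψ⟩ := main_family hNIP HN φ Φ hinv hcons
  obtain ⟨k, ⟨e⟩⟩ := Finite.exists_equiv_fin Z
  obtain ⟨l, hl⟩ : ∃ l, ∀ C : Set (Fin m → N), C.Finite → ∃ z : Z → M, ∀ c ∈ C,
      ((ψ l).Realize (Sum.elim c (fun i => f (z i))) ↔ Φ c) := by
    by_contra hno
    have hno' : ∀ l, ∃ C : Set (Fin m → N), C.Finite ∧ ∀ z : Z → M, ¬ ∀ c ∈ C,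
        ((ψ l).Realize (Sum.elim c (fun i => f (z i))) ↔ Φ c) := by
      intro l
      by_contra hl
      apply hno
      refine ⟨l, fun C hC => ?_⟩
      by_contra hz
      exact hl ⟨C, hC, fun z h => hz ⟨z, h⟩⟩
    choose C hC hCz using hno'
    obtain ⟨l, z, hz⟩ := hψ (⋃ l, C l) (Set.finite_iUnion hC)
    exact hCz l z fun c hc => hz c (Set.mem_iUnion.2 ⟨l, hc⟩)
  refine ⟨k, (ψ l).relabel (Sum.map id e), fun C hC => ?_⟩
  obtain ⟨z, hz⟩ := hl C hC
  refine ⟨fun i => z (e.symm i), fun c hc => ?_⟩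
  rw [Formula.realize_relabel, ← hz c hc]
  have key : (Sum.elim c fun i => f (z (e.symm i))) ∘ Sum.map id e =
      Sum.elim c (fun i => f (z i)) := by
    funext x
    rcases x with x | x
    · rfl
    · simp
  rw [key]

end MainSec

end Helper726CD
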