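import Mathlib
import Pool.Agent.Helper726_CoheirDef.Main

set_option autoImplicit false

open FirstOrder FirstOrder.Language

namespace Pool.Agent.Results.MP_064793_lc.CoheirDefinability

section Defs

variable {L : FirstOrder.Language.{0, 0}}

/-- `Th(M)` is NIP: no formula `φ(x;y)` (in tuples of variables) shatters arbitrarily large
finite sets in `M`. -/
def IsNIP (L : FirstOrder.Language.{0, 0}) (M : Type) [L.Structure M] : Prop :=
  ∀ (n m : ℕ) (φ : L.Formula (Fin n ⊕ Fin m)), ∃ K : ℕ, ∀ a : Fin K → Fin n → M,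
    ¬ ∀ J : Finset (Fin K), ∃ b : Fin m → M, ∀ i : Fin K,
      (φ.Realize (Sum.elim (a i) b) ↔ i ∈ J)

variable {M N U : Type} [L.Structure M] [L.Structure N] [L.Structure U]

/-- `tp(c/M) = tp(c'/M)` for tuples `c`, `c'` of `N`, where `f : M → N` is elementary. -/
def SameType (f : M ↪ₑ[L] N) {m : ℕ} (c c' : Fin m → N) : Prop :=
  ∀ (k : ℕ) (ψ : L.Formula (Fin m ⊕ Fin k)) (d : Fin k → M),
    (ψ.Realize (Sum.elim c (fun i => f (d i))) ↔ ψ.Realize (Sum.elim c' (fun i => f (d i))))

/-- `N` realizes every type over `M` in finitely many variables: the type over `M` of every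
finite tuple `d` of every elementary extension `M'` of `M` is realized in `N`.  (In particular
this holds if `N` is `|M|⁺`-saturated.) -/
def RealizesAllTypes (f : M ↪ₑ[L] N) : Prop :=
  ∀ (m : ℕ) (M' : Type) [L.Structure M'] (h : M ↪ₑ[L] M') (d : Fin m → M'),
    ∃ b : Fin m → N, ∀ (k : ℕ) (ψ : L.Formula (Fin m ⊕ Fin k)) (c : Fin k → M),
      (ψ.Realize (Sum.elim d (fun i => h (c i))) ↔
        ψ.Realize (Sum.elim b (fun i => f (c i))))

/-- `tp(a/N)` is `M`-invariant, where `M ≺ N ≺ U` and `a` is a tuple of `U`. -/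
def InvariantType (f : M ↪ₑ[L] N) (g : N ↪ₑ[L] U) {n : ℕ} (a : Fin n → U) : Prop :=
  ∀ (m : ℕ) (χ : L.Formula (Fin n ⊕ Fin m)) (c c' : Fin m → N), SameType f c c' →
    (χ.Realize (Sum.elim a (fun i => g (c i))) ↔ χ.Realize (Sum.elim a (fun i => g (c' i))))

/-- `tp(b/N)` is finitely satisfiable in `M`, where `M ≺ N ≺ U` and `b` is a tuple of `U`. -/
def FinSatType (f : M ↪ₑ[L] N) (g : N ↪ₑ[L] U) {k : ℕ} (b : Fin k → U) : Prop :=
  ∀ (m : ℕ) (χ : L.Formula (Fin k ⊕ Fin m)) (c : Fin m → N),
    χ.Realize (Sum.elim b (fun i => g (c i))) →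
      ∃ b₀ : Fin k → M, χ.Realize (Sum.elim (fun i => f (b₀ i)) c)

end Defs

open Helper726LI Helper726CD

/-- **Invariant types in NIP theories are coheir-definable.**  Let `Th(M)` be NIP, `M ≺ N ≺ U`,
let `N` realize all finitary types over `M`, let `a` be a tuple of `U` with `tp(a/N)`
`M`-invariant, and let `φ(x;y,d)` be a formula with parameters `d` from `M`.  Then in some
elementary extension `V` of `U` there are a tuple `b` with `tp(b/N)` finitely satisfiable in `M`
and an `L`-formula `ψ(x;z)` with `φ(N;a,d) = ψ(N;b)`. -/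
theorem result (L : FirstOrder.Language.{0, 0}) (M : Type) [L.Structure M] [Nonempty M]
    (hNIP : IsNIP L M) (N : Type) [L.Structure N] (f : M ↪ₑ[L] N) (hN : RealizesAllTypes f)
    (U : Type) [L.Structure U] (g : N ↪ₑ[L] U) (n : ℕ) (a : Fin n → U)
    (ha : InvariantType f g a) (m l : ℕ) (φ : L.Formula (Fin m ⊕ (Fin n ⊕ Fin l)))
    (d : Fin l → M) :
    ∃ (V : Type) (_ : L.Structure V) (h : U ↪ₑ[L] V) (k : ℕ) (b : Fin k → V)
      (ψ : L.Formula (Fin m ⊕ Fin k)), FinSatType f (h.comp g) b ∧
        ∀ c : Fin m → N,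
          (φ.Realize (Sum.elim (fun i => g (c i)) (Sum.elim a (fun i => g (f (d i))))) ↔
            ψ.Realize (Sum.elim (fun i => h (g (c i))) b)) := by
  classical
  -- the invariant predicate
  let Φ : (Fin m → N) → Prop := fun c =>
    φ.Realize (Sum.elim (fun i => g (c i)) (Sum.elim a (fun i => g (f (d i)))))
  -- invariance
  have hinv : ∀ c c' : Fin m → N, tpEq f c c' → (Φ c ↔ Φ c') := by
    intro c c' hcc
    have h1 := ha (m + l) (φ.relabel (Sum.elim (fun i => Sum.inr (Fin.castAdd l i))
      (Sum.elim (fun i => Sum.inl i) (fun i => Sum.inr (Fin.natAdd m i)))))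
      (Fin.append c (fun i => f (d i))) (Fin.append c' (fun i => f (d i))) (by
        intro k ψ e
        have key : ∀ v : Fin m → N, (fun x => Sum.elim v f ((Sum.elim
            (Fin.append (fun i => Sum.inl i) (fun i => Sum.inr (d i)) :
              Fin (m + l) → Fin m ⊕ M) (fun i => Sum.inr (e i))) x)) =
            Sum.elim (Fin.append v (fun i => f (d i))) (fun i => f (e i)) := by
          intro v
          funext x
          rcases x with x | x
          · refine Fin.addCases (fun i => ?_) (fun i => ?_) x <;> simp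
          · rfl
        have h2 := hcc _ (Mdef.formula f ψ (Sum.elim
            (Fin.append (fun i => Sum.inl i) (fun i => Sum.inr (d i)) :
              Fin (m + l) → Fin m ⊕ M) (fun i => Sum.inr (e i))))
        simp only [Set.mem_ofPred_eq, key] at h2
        exact h2)
    rw [Formula.realize_relabel, Formula.realize_relabel] at h1
    have key2 : ∀ v : Fin m → N, (Sum.elim a fun i => g (Fin.append v (fun i => f (d i)) i)) ∘
        (Sum.elim (fun i => Sum.inr (Fin.castAdd l i))
          (Sum.elim (fun i => Sum.inl i) (fun i => Sum.inr (Fin.natAdd m i)))) =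
        Sum.elim (fun i => g (v i)) (Sum.elim a (fun i => g (f (d i)))) := by
      intro v
      funext x
      rcases x with x | x | x <;> simp
    rw [key2, key2] at h1
    exact h1
  -- finite satisfiability of the pattern in `N`
  have hcons : ∀ (K : ℕ) (w : Fin K → Fin m → N), ∃ x : Fin (n + l) → N, ∀ i,
      ((φ.relabel (Sum.elim (fun j => Sum.inr j) (Sum.elim (fun j => Sum.inl (Fin.castAdd l j))
        (fun j => Sum.inl (Fin.natAdd n j)))) : L.Formula (Fin (n + l) ⊕ Fin m)).Realize
          (Sum.elim x (w i)) ↔ Φ (w i)) := by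
    intro K w
    have hd : Mdef g {x : Fin n → U | ∀ i : Fin K,
        x ∈ {x : Fin n → U | x ∈ {x : Fin n → U | φ.Realize (fun z => Sum.elim x g
          ((Sum.elim (fun j => Sum.inr (w i j)) (Sum.elim (fun j => Sum.inl j)
            (fun j => Sum.inr (f (d j)))) : Fin m ⊕ (Fin n ⊕ Fin l) → Fin n ⊕ N) z))} ↔
            Φ (w i)}} :=
      Mdef.all fun i => (Mdef.formula g φ _).iff_const _
    have key : ∀ (x : Fin n → U) (i : Fin K), (fun z => Sum.elim x g
          ((Sum.elim (fun j => Sum.inr (w i j)) (Sum.elim (fun j => Sum.inl j)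
            (fun j => Sum.inr (f (d j)))) : Fin m ⊕ (Fin n ⊕ Fin l) → Fin n ⊕ N) z)) =
          Sum.elim (fun j => g (w i j)) (Sum.elim x (fun j => g (f (d j)))) := by
      intro x i
      funext z
      rcases z with z | z | z <;> rfl
    obtain ⟨x, hx⟩ := hd.point (v₀ := a) (by
      intro i
      simp only [Set.mem_ofPred_eq, key]
      exact Iff.rfl)
    refine ⟨Fin.append x (fun j => f (d j)), fun i => ?_⟩
    have h1 := hx i
    simp only [Set.mem_ofPred_eq, key] at h1
    rw [← h1, Formula.realize_relabel, ← g.map_formula]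
    have : ⇑g ∘ Sum.elim (Fin.append x fun j => f (d j)) (w i) ∘
        (Sum.elim (fun j => Sum.inr j) (Sum.elim (fun j => Sum.inl (Fin.castAdd l j))
        (fun j => Sum.inl (Fin.natAdd n j)))) =
        Sum.elim (fun j => g (w i j)) (Sum.elim (fun j => g (x j)) fun j => g (f (d j))) := by
      funext z
      rcases z with z | z | z <;> simp
    rw [this]
  obtain ⟨k, ψ, hψ⟩ := main_single (f := f) hNIP hN _ Φ hinv hcons
  -- the ultrapower
  choose z hz using fun C : Finset (Fin m → N) => hψ (C : Set (Fin m → N)) C.finite_toSet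
  let u : Ultrafilter (Finset (Fin m → N)) := Ultrafilter.of Filter.atTop
  have hu : ∀ c : Fin m → N, ∀ᶠ C in (u : Filter (Finset (Fin m → N))), c ∈ C := by
    intro c
    have h1 : (u : Filter (Finset (Fin m → N))) ≤ Filter.atTop := Ultrafilter.of_le _
    refine h1 ?_
    filter_upwards [Filter.eventually_ge_atTop ({c} : Finset (Fin m → N))] with C hC
    exact hC (Finset.mem_singleton_self c)
  have hneU : Nonempty U := ⟨g (f (Classical.arbitrary M))⟩
  refine ⟨(u : Filter (Finset (Fin m → N))).Product (fun _ => U), inferInstance,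
    diag (L := L) u, k, fun j => ((fun C => g (f (z C j)) : Finset (Fin m → N) → U) :
      (u : Filter (Finset (Fin m → N))).Product (fun _ => U)), ψ, ?_, ?_⟩
  · intro r χ c hχ
    have key := Ultraproduct.realize_formula_cast (u := u) χ
      (Sum.elim (fun (j : Fin k) (C : Finset (Fin m → N)) => g (f (z C j)))
        (fun (j : Fin r) (_ : Finset (Fin m → N)) => g (c j)))
    have h2 : (fun i : Fin k ⊕ Fin r => (((Sum.elim (fun (j : Fin k)
        (C : Finset (Fin m → N)) => g (f (z C j)))
        (fun (j : Fin r) (_ : Finset (Fin m → N)) => g (c j))) i : Finset (Fin m → N) → U) :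
        (u : Filter (Finset (Fin m → N))).Product (fun _ => U))) =
        Sum.elim (fun j => ((fun C => g (f (z C j)) : Finset (Fin m → N) → U) :
          (u : Filter (Finset (Fin m → N))).Product (fun _ => U)))
          (fun i => ((diag (L := L) u).comp g) (c i)) := by
      funext x
      rcases x with x | x <;> rfl
    have h3 := ((iff_of_eq (congrArg (fun w => χ.Realize w) h2)).symm.trans key).1 hχ
    obtain ⟨C, hC⟩ := h3.exists
    refine ⟨z C, ?_⟩
    rw [← g.map_formula]
    convert hC using 1
    funext x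
    rcases x with x | x <;> rfl
  · intro c
    have key := Ultraproduct.realize_formula_cast (u := u) ψ
      (Sum.elim (fun (j : Fin m) (_ : Finset (Fin m → N)) => g (c j))
        (fun (j : Fin k) (C : Finset (Fin m → N)) => g (f (z C j))))
    have h2 : (fun i : Fin m ⊕ Fin k => (((Sum.elim (fun (j : Fin m)
        (_ : Finset (Fin m → N)) => g (c j))
        (fun (j : Fin k) (C : Finset (Fin m → N)) => g (f (z C j)))) i :
          Finset (Fin m → N) → U) :
        (u : Filter (Finset (Fin m → N))).Product (fun _ => U))) =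
        Sum.elim (fun i => (diag (L := L) u) (g (c i)))
          (fun j => ((fun C => g (f (z C j)) : Finset (Fin m → N) → U) :
          (u : Filter (Finset (Fin m → N))).Product (fun _ => U))) := by
      funext x
      rcases x with x | x <;> rfl
    refine Iff.trans ?_ ((iff_of_eq (congrArg (fun w => ψ.Realize w) h2)).symm.trans key).symm
    have hev : ∀ᶠ C in (u : Filter (Finset (Fin m → N))), (Φ c ↔ ψ.Realize (fun i =>
        (Sum.elim (fun (j : Fin m) (_ : Finset (Fin m → N)) => g (c j))
        (fun (j : Fin k) (C : Finset (Fin m → N)) => g (f (z C j)))) i C)) := by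
      filter_upwards [hu c] with C hC
      rw [← hz C c (by simpa using hC), ← g.map_formula]
      have : ⇑g ∘ Sum.elim c (fun i => f (z C i)) = (fun i =>
        (Sum.elim (fun (j : Fin m) (_ : Finset (Fin m → N)) => g (c j))
        (fun (j : Fin k) (C : Finset (Fin m → N)) => g (f (z C j)))) i C) := by
        funext x
        rcases x with x | x <;> rfl
      rw [this]
    constructor
    · intro hΦ
      filter_upwards [hev] with C hC
      exact hC.1 hΦ
    · intro hψ'
      obtain ⟨C, hC1, hC2⟩ := (hψ'.and hev).exists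
      exact hC2.2 hC1

end Pool.Agent.Results.MP_064793_lc.CoheirDefinability
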